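import Pool.Agent.D0H17.GE.Defs

set_option autoImplicit false

/-! Waring's problem with one generic shift: definitions. -/

namespace Pool.Agent.D0H17.SH

open Finset Pool.Agent.D0H17.GE

/-- sums of shifted powers -/
noncomputable def TT {t : ℕ} (m : ℕ) (θ : ℝ) (u : Fin t → ℕ) : ℝ := ∑ i, ((u i : ℝ) + θ) ^ m

/-- the thin index set of the second block: `v_i ∈ [e p_i / 2, e p_i]`, a multiple of `⌈A p_i / p_{i+1}⌉` -/
noncomputable def YY (e A : ℝ) (t : ℕ) (p : ℕ → ℝ) : Finset (Fin t → ℕ) :=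
  Fintype.piFinset fun i => (Icc ⌈e * p i / 2⌉₊ ⌊e * p i⌋₊).filter fun m => ⌈A * (p i / p (i + 1))⌉₊ ∣ m

/-- what is used about the scales `p_0, ..., p_T` -/
structure SN (Λ K : ℝ) (n j T : ℕ) (p : ℕ → ℝ) : Prop where
  big : ∀ i ≤ T, Λ ≤ p i
  top : ∀ i ≤ T, p i ≤ 2 ^ j
  step : ∀ i < T, p (i + 1) ^ (n + 2) = K ^ (n + 2) * p i ^ (n + 1)
  gap : ∀ i < T, Λ * p (i + 1) ≤ p i

end Pool.Agent.D0H17.SH
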