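import Pool.Agent.D0H17.SH.Three
import Pool.Agent.D0H17.GE.DimE

set_option autoImplicit false

/-! The Hausdorff dimension of the set of bad shifts. -/

namespace Pool.Agent.D0H17.SH

open Finset MeasureTheory Filter Pool.Agent.D0H17.GE
open scoped ENNReal

lemma pow_rpow_swap {a : ℝ} (ha : 0 < a) (j : ℕ) (x : ℝ) : (a ^ j) ^ x = (a ^ x) ^ j := by
  rw [← Real.rpow_natCast, ← Real.rpow_natCast, ← Real.rpow_mul ha.le, ← Real.rpow_mul ha.le, mul_comm]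

open Classical in
/-- the cells with a bad shift -/
noncomputable def FS (R : ℕ) (K e A A1 A2 : ℝ) (n t t' : ℕ) (ρ : ℝ) (L j : ℕ) : Finset ℕ :=
  (range (NN L n j)).filter fun z => ∃ θ ∈ BadT R K e A A1 A2 n t t' j ρ, θ ∈ MR.cell (NN L n j) z

theorem dimS (n R t t' : ℕ) (K A1 A2 ρ : ℝ) (hR : 4 ≤ R)
    (hK : ((n : ℝ) + 3) * (R + 1) ≤ K) (hA1 : 2 ^ (n + 2) + ((t : ℝ) + 1) + ((t' : ℝ) + 1) + 1 ≤ A1) (hA2 : A2 + 1 ≤ R)
    (hA20 : 0 ≤ A2) (hρ : 0 < ρ) (hρ4 : ρ ≤ 1 / 4) (D : ℝ) (hD : dd n ^ t + dd n ^ (t + 1) + dd n ^ t' < D) (hD1 : D < 1) :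
    ∃ (e A : ℝ) (j0 : ℕ), 0 < e ∧ (∀ j : ℕ, j0 ≤ j → 1 ≤ j ∧ (∀ i ≤ max t t', 32 * (j : ℝ) ^ 2 ≤ pp K ((n : ℝ) + 2) j i) ∧
      (∀ i ≤ t, (j : ℝ) ≤ e * pp K ((n : ℝ) + 2) j i / 2)) ∧
      dimH {θ : ℝ | ∃ᶠ j in atTop, θ ∈ BadT R K e A A1 A2 n t t' j ρ ∧ 0 ≤ θ ∧ θ < 1} ≤ ENNReal.ofReal D := by
  classical
  obtain ⟨e, A, C, L, j0, he, hC, hL, hj0, hmain⟩ := one_scale n R t t' K A1 A2 ρ hR hK hA1 hA2 hA20 hρ hρ4
  refine ⟨e, A, j0, he, fun j hj => ⟨by omega, (hmain j hj).1, (hmain j hj).2.1⟩, ?_⟩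
  obtain ⟨hd0, hd1⟩ := dd_mem n
  obtain ⟨E, hE⟩ : ∃ E : ℝ, E = dd n ^ t + dd n ^ (t + 1) + dd n ^ t' := ⟨_, rfl⟩
  rw [← hE] at hD
  have hE0 : 0 < E := by rw [hE]; positivity
  have hD0 : 0 < D := by linarith
  have hLr : (1 : ℝ) ≤ L := by exact_mod_cast hL
  have hNpos : ∀ j, 0 < NN L n j := by
    intro j
    unfold NN
    positivity
  have hmono : {θ : ℝ | ∃ᶠ j in atTop, θ ∈ BadT R K e A A1 A2 n t t' j ρ ∧ 0 ≤ θ ∧ θ < 1} ⊆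
      {θ | ∃ᶠ j in atTop, ∃ z ∈ FS R K e A A1 A2 n t t' ρ L j, θ ∈ MR.cell (NN L n j) z} := by
    intro θ hθ
    have hθ' : ∃ᶠ j in atTop, θ ∈ BadT R K e A A1 A2 n t t' j ρ ∧ 0 ≤ θ ∧ θ < 1 := hθ
    refine hθ'.mono ?_
    rintro j ⟨hbad, hθ0, hθ1⟩
    have hN0 : (0 : ℝ) < (NN L n j : ℝ) := by exact_mod_cast hNpos j
    refine ⟨⌊θ * (NN L n j : ℝ)⌋₊, ?_, mem_cell (NN L n j) (hNpos j) hθ0⟩
    unfold FS
    rw [mem_filter, mem_range]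
    refine ⟨?_, θ, hbad, mem_cell (NN L n j) (hNpos j) hθ0⟩
    rw [Nat.floor_lt (by positivity)]
    calc θ * (NN L n j : ℝ) < 1 * (NN L n j : ℝ) := mul_lt_mul_of_pos_right hθ1 hN0
      _ = _ := one_mul _
  refine (dimH_mono hmono).trans ?_
  refine Pool.Agent.N84.MD.core (fun j z => MR.cell (NN L n j) z) D hD0
    (fun j => FS R K e A A1 A2 n t t' ρ L j) (fun j => 1 / (NN L n j : ℝ))
    (fun j => by positivity) (fun j z _ => MR.cell_diam (NN L n j) z (hNpos j)) ?_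
  obtain ⟨m, hm⟩ : ∃ m : ℕ, m = 1 + 2 * (t' + 1) := ⟨_, rfl⟩
  have hcount : ∀ j : ℕ, j0 ≤ j → ((FS R K e A A1 A2 n t t' ρ L j).card : ℝ) ≤
      (NN L n j : ℝ) * (C * (j : ℝ) ^ m * (((2 : ℝ) ^ j) ^ (n + 1)) ^ (E - 1)) := by
    intro j hj
    have h1 := (hmain j hj).2.2 (FS R K e A A1 A2 n t t' ρ L j) (by
      intro z hz
      unfold FS at hz
      rw [mem_filter, mem_range] at hz
      exact hz)
    rw [← hm, ← hE] at h1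
    exact h1
  -- summability
  obtain ⟨r, hr⟩ : ∃ r : ℝ, r = ((2 : ℝ) ^ (n + 1)) ^ (E - D) := ⟨_, rfl⟩
  have hr0 : 0 < r := by rw [hr]; positivity
  have hr1 : r < 1 := by
    rw [hr]
    exact Real.rpow_lt_one_of_one_lt_of_neg (one_lt_pow₀ (by norm_num) (by omega)) (by linarith)
  have hS := summable_pow_geom m hr0 hr1 (C * L)
  refine Summable.of_norm_bounded_eventually_nat hS ?_
  filter_upwards [eventually_ge_atTop j0] with j hj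
  rw [Real.norm_of_nonneg (by positivity)]
  obtain ⟨N, hN⟩ : ∃ N : ℝ, N = (NN L n j : ℝ) := ⟨_, rfl⟩
  obtain ⟨Q, hQ⟩ : ∃ Q : ℝ, Q = ((2 : ℝ) ^ j) ^ (n + 1) := ⟨_, rfl⟩
  have hQ0 : 0 < Q := by rw [hQ]; positivity
  have hNQ : N = L * Q := by rw [hN, hQ, NN_cast]
  have hNp : 0 < N := by rw [hNQ]; positivity
  have hj0' : (0 : ℝ) ≤ j := Nat.cast_nonneg j
  have h0 := hcount j hj
  rw [← hN, ← hQ] at h0
  rw [← hN]
  have h1 : (1 / N) ^ D = N ^ (-D) := by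
    rw [one_div, Real.inv_rpow hNp.le, Real.rpow_neg hNp.le]
  have h2 : N * N ^ (-D) = N ^ (1 - D) := by
    nth_rw 1 [← Real.rpow_one N]
    rw [← Real.rpow_add hNp]
    congr 1
  have h3 : N ^ (1 - D) ≤ L * Q ^ (1 - D) := by
    rw [hNQ, Real.mul_rpow (by linarith) hQ0.le]
    refine mul_le_mul_of_nonneg_right ?_ (by positivity)
    calc (L : ℝ) ^ (1 - D) ≤ (L : ℝ) ^ (1 : ℝ) := Real.rpow_le_rpow_of_exponent_le hLr (by linarith)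
      _ = L := Real.rpow_one _
  have h4 : Q ^ (1 - D) * Q ^ (E - 1) = r ^ j := by
    have e1 : Q = ((2 : ℝ) ^ (n + 1)) ^ j := by
      rw [hQ, ← pow_mul, ← pow_mul, mul_comm]
    rw [← Real.rpow_add hQ0, hr, ← pow_rpow_swap (by positivity) j (E - D), ← e1]
    congr 1
    ring
  have h5 : (j : ℝ) ^ m ≤ ((j : ℝ) + 1) ^ m := pow_le_pow_left₀ hj0' (by linarith) m
  calc _ ≤ (N * (C * (j : ℝ) ^ m * Q ^ (E - 1))) * (1 / N) ^ D :=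
        mul_le_mul_of_nonneg_right h0 (by positivity)
    _ = C * (j : ℝ) ^ m * Q ^ (E - 1) * (N * N ^ (-D)) := by rw [h1]; ring
    _ = C * (j : ℝ) ^ m * Q ^ (E - 1) * N ^ (1 - D) := by rw [h2]
    _ ≤ C * ((j : ℝ) + 1) ^ m * Q ^ (E - 1) * (L * Q ^ (1 - D)) := by
        refine mul_le_mul ?_ h3 (by positivity) (by positivity)
        refine mul_le_mul_of_nonneg_right ?_ (by positivity)
        exact mul_le_mul_of_nonneg_left h5 hC.le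
    _ = C * L * (((j : ℝ) + 1) ^ m * (Q ^ (1 - D) * Q ^ (E - 1))) := by ring
    _ = _ := by rw [h4]

end Pool.Agent.D0H17.SH
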