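import Pool.Agent.D0H17.SH.DimS

set_option autoImplicit false

/-! The final theorem for one generic shift. -/

namespace Pool.Agent.D0H17.SH

open Finset MeasureTheory Filter Pool.Agent.D0H17.GE
open scoped ENNReal

/-- every large real number is arbitrarily close to a sum of `s` numbers `(x + θ) ^ k`, `x ≥ 1` -/
def CovS (k s : ℕ) (θ : ℝ) : Prop :=
  ∀ η : ℝ, 0 < η → ∃ τ₀ : ℝ, ∀ τ : ℝ, τ₀ ≤ τ → ∃ x : Fin s → ℕ, (∀ i, 1 ≤ x i) ∧ |∑ i, ((x i : ℝ) + θ) ^ k - τ| < η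

/-- the same with large `x` -/
def CovB (k s : ℕ) (θ : ℝ) : Prop :=
  ∀ B : ℕ, ∀ η : ℝ, 0 < η → ∃ τ₀ : ℝ, ∀ τ : ℝ, τ₀ ≤ τ → ∃ x : Fin s → ℕ, (∀ i, B ≤ x i) ∧
    |∑ i, ((x i : ℝ) + θ) ^ k - τ| < η

lemma append_sum {a b : ℕ} (k : ℕ) (θ : ℝ) (x : Fin a → ℕ) (y : Fin b → ℕ) :
    ∑ l, (((Fin.append x y l : ℕ) : ℝ) + θ) ^ k = ∑ i, ((x i : ℝ) + θ) ^ k + ∑ j, ((y j : ℝ) + θ) ^ k := by
  rw [Fin.sum_univ_add]
  simp only [Fin.append_left, Fin.append_right]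

lemma append_ge {a b : ℕ} {x : Fin a → ℕ} {y : Fin b → ℕ} {B : ℕ} (hx : ∀ i, B ≤ x i) (hy : ∀ i, B ≤ y i) :
    ∀ l, B ≤ (Fin.append x y l : ℕ) := by
  intro l
  refine Fin.addCases (fun a => ?_) (fun a => ?_) l
  · rw [Fin.append_left]; exact hx a
  · rw [Fin.append_right]; exact hy a

lemma CovS.succ {k s : ℕ} {θ : ℝ} (h : CovS k s θ) : CovS k (s + 1) θ := by
  intro η hη
  obtain ⟨τ₀, h⟩ := h η hη
  refine ⟨τ₀ + (1 + θ) ^ k, fun τ hτ => ?_⟩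
  obtain ⟨x, hx, h1⟩ := h (τ - (1 + θ) ^ k) (by linarith)
  refine ⟨Fin.append x (fun _ : Fin 1 => 1), append_ge hx fun _ => le_rfl, ?_⟩
  rw [append_sum]
  have e : ∑ j : Fin 1, ((((fun _ : Fin 1 => (1 : ℕ)) j : ℕ) : ℝ) + θ) ^ k = (1 + θ) ^ k := by simp
  rw [e]
  refine lt_of_le_of_lt (le_of_eq ?_) h1
  congr 1
  ring

lemma CovS.mono {k s s' : ℕ} {θ : ℝ} (h : CovS k s θ) (hs : s ≤ s') : CovS k s' θ := by
  induction s', hs using Nat.le_induction with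
  | base => exact h
  | succ n _ ih => exact ih.succ

/-- from real targets to integers -/
lemma CovS.floor {k s : ℕ} {θ : ℝ} (h : CovS k s θ) : ∃ n₀ : ℕ, ∀ n : ℕ, n₀ ≤ n →
    ∃ x : Fin s → ℕ, (∀ i, 1 ≤ x i) ∧ n = ⌊∑ i, ((x i : ℝ) + θ) ^ k⌋₊ := by
  obtain ⟨τ₀, h⟩ := h (1 / 2) (by norm_num)
  refine ⟨⌈τ₀⌉₊, fun n hn => ?_⟩
  have h1 : τ₀ ≤ (n : ℝ) + 1 / 2 := by
    have h2 : τ₀ ≤ (⌈τ₀⌉₊ : ℝ) := Nat.le_ceil _
    have h3 : ((⌈τ₀⌉₊ : ℕ) : ℝ) ≤ n := by exact_mod_cast hn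
    linarith
  obtain ⟨x, hx, hxy⟩ := h _ h1
  refine ⟨x, hx, ?_⟩
  rw [abs_lt] at hxy
  have hn0 : (0 : ℝ) ≤ n := Nat.cast_nonneg n
  symm
  rw [Nat.floor_eq_iff (by linarith [hxy.1])]
  constructor <;> linarith [hxy.1, hxy.2]

/-- translation of the shift by an integer -/
lemma CovB.shift {k s : ℕ} {θ : ℝ} (h : CovB k s θ) (m : ℤ) : CovS k s (θ + m) := by
  intro η hη
  obtain ⟨τ₀, h⟩ := h (m.natAbs + 1) η hη
  refine ⟨τ₀, fun τ hτ => ?_⟩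
  obtain ⟨x, hx, h1⟩ := h τ hτ
  refine ⟨fun i => ((x i : ℤ) - m).toNat, fun i => ?_, ?_⟩
  · have h2 := hx i
    show 1 ≤ ((x i : ℤ) - m).toNat
    omega
  · have e : ∀ i, ((((x i : ℤ) - m).toNat : ℕ) : ℝ) + (θ + m) = (x i : ℝ) + θ := by
      intro i
      have h2 := hx i
      have h3 : ((((x i : ℤ) - m).toNat : ℕ) : ℤ) = (x i : ℤ) - m := by omega
      have h4 : ((((x i : ℤ) - m).toNat : ℕ) : ℝ) = (x i : ℝ) - m := by exact_mod_cast h3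
      rw [h4]
      ring
    have e2 : ∑ i, ((((fun i => ((x i : ℤ) - m).toNat) i : ℕ) : ℝ) + (θ + m)) ^ k = ∑ i, ((x i : ℝ) + θ) ^ k :=
      sum_congr rfl fun i _ => by rw [e i]
    rw [e2]
    exact h1

theorem finS_int (n t t' : ℕ) (D : ℝ) (hD : dd n ^ t + dd n ^ (t + 1) + dd n ^ t' < D) (hD1 : D < 1) :
    dimH {θ : ℝ | 0 ≤ θ ∧ θ < 1 ∧ ¬ CovB (n + 2) ((t + 1) + (t + 1) + (t' + 1)) θ} ≤ ENNReal.ofReal D := by
  obtain ⟨A1, hA1⟩ : ∃ A1 : ℝ, A1 = 2 ^ (n + 2) + ((t : ℝ) + 1) + ((t' : ℝ) + 1) + 1 := ⟨_, rfl⟩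
  obtain ⟨A2, hA2⟩ : ∃ A2 : ℝ, A2 = 2 ^ (n + 2) * A1 := ⟨_, rfl⟩
  obtain ⟨R, hR⟩ : ∃ R : ℕ, R = ⌈A2⌉₊ + 4 := ⟨_, rfl⟩
  obtain ⟨K, hK⟩ : ∃ K : ℝ, K = ((n : ℝ) + 3) * (R + 1) := ⟨_, rfl⟩
  have hA10 : 0 < A1 := by rw [hA1]; positivity
  have hA20 : 0 < A2 := by rw [hA2]; positivity
  have hR4 : 4 ≤ R := by omega
  have hRA : A2 + 1 ≤ R := by
    rw [hR]
    push_cast
    have := Nat.le_ceil A2
    linarith
  choose e A j0 he hlow hdim using fun H : ℕ => dimS n R t t' K A1 A2 (1 / (8 * ((H : ℝ) + 1))) hR4 hK.ge hA1.ge hRA hA20.le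
    (by positivity) (by
      rw [div_le_div_iff₀ (by positivity) (by norm_num)]
      have h1 : (0 : ℝ) ≤ H := Nat.cast_nonneg H
      linarith) D hD hD1
  have hsub : {θ : ℝ | 0 ≤ θ ∧ θ < 1 ∧ ¬ CovB (n + 2) ((t + 1) + (t + 1) + (t' + 1)) θ} ⊆
      ⋃ H : ℕ, {θ : ℝ | ∃ᶠ j in atTop, θ ∈ BadT R K (e H) (A H) A1 A2 n t t' j (1 / (8 * ((H : ℝ) + 1))) ∧
        0 ≤ θ ∧ θ < 1} := by
    rintro θ ⟨hθ0, hθ1, hc⟩
    by_contra hcon
    apply hc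
    simp only [Set.mem_iUnion, not_exists] at hcon
    intro B η hη
    obtain ⟨H, hH⟩ := exists_nat_one_div_lt hη
    have hev := hcon H
    simp only [Set.mem_ofPred_eq, not_frequently] at hev
    obtain ⟨J0, hJ0⟩ := eventually_atTop.1 hev
    obtain ⟨J, hJ⟩ : ∃ J : ℕ, J = max J0 (max (j0 H) B) := ⟨_, rfl⟩
    have hy1 : (1 : ℝ) < 2 ^ (n + 2) := one_lt_pow₀ (by norm_num) (by omega)
    refine ⟨A1 * ((2 : ℝ) ^ (n + 2)) ^ J, fun τ hτ => ?_⟩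
    have hτx : ((2 : ℝ) ^ (n + 2)) ^ J ≤ τ / A1 := by
      rw [le_div_iff₀ hA10]
      linarith
    have hx1 : 1 ≤ τ / A1 := le_trans (one_le_pow₀ hy1.le) hτx
    obtain ⟨j, hj1, hj2⟩ := exists_nat_pow_near hx1 hy1
    have hJj : J ≤ j := by
      by_contra hlt
      have h3 : ((2 : ℝ) ^ (n + 2)) ^ (j + 1) ≤ ((2 : ℝ) ^ (n + 2)) ^ J := pow_le_pow_right₀ hy1.le (by omega)
      linarith
    have hJ1 : J0 ≤ j := by omega
    have hJ2 : j0 H ≤ j := by omega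
    have hJ3 : B ≤ j := by omega
    have hnot := hJ0 j hJ1
    obtain ⟨hj3, hlow1, hlow2⟩ := hlow H j hJ2
    have hj0' : (1 : ℝ) ≤ j := by exact_mod_cast hj3
    have hBj : (B : ℝ) ≤ j := by exact_mod_cast hJ3
    have eP : ((2 : ℝ) ^ (n + 2)) ^ j = ((2 : ℝ) ^ j) ^ (n + 2) := by
      rw [← pow_mul, ← pow_mul, mul_comm]
    have hτ1 : A1 * ((2 : ℝ) ^ j) ^ (n + 2) ≤ τ := by
      rw [le_div_iff₀ hA10] at hj1
      rw [← eP]
      linarith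
    have hτ2 : τ ≤ A2 * ((2 : ℝ) ^ j) ^ (n + 2) := by
      rw [div_lt_iff₀ hA10] at hj2
      calc τ ≤ ((2 : ℝ) ^ (n + 2)) ^ (j + 1) * A1 := hj2.le
        _ = _ := by rw [pow_succ, eP, hA2]; ring
    have hex : ∃ u ∈ XS R (t + 1) (pp K ((n : ℝ) + 2) j), ∃ v ∈ YY (e H) (A H) (t + 1) (pp K ((n : ℝ) + 2) j),
        ∃ z ∈ YS (j ^ 2) (t' + 1) (pp K ((n : ℝ) + 2) j),
        |TT (n + 2) θ u + TT (n + 2) θ v + TT (n + 2) θ z - τ| < 3 * (1 / (8 * ((H : ℝ) + 1))) := by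
      by_contra hno
      apply hnot
      refine ⟨⟨τ, hτ1, hτ2, ?_⟩, hθ0, hθ1⟩
      intro u hu v hv z hz
      by_contra hc
      exact hno ⟨u, hu, v, hv, z, hz, not_le.1 hc⟩
    obtain ⟨u, hu, v, hv, z, hz, hlt⟩ := hex
    have hp0 : ∀ i ≤ max t t', (0 : ℝ) ≤ pp K ((n : ℝ) + 2) j i := fun i hi => le_trans (by positivity) (hlow1 i hi)
    have huB : ∀ i, B ≤ u i := by
      intro i
      have h1 := ((mem_XS (fun i => hp0 i (by have := i.2; omega))).1 hu i).1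
      have h2 := hlow1 i (by have := i.2; omega)
      have h3 : (B : ℝ) ≤ u i := by nlinarith
      exact_mod_cast h3
    have hvB : ∀ i, B ≤ v i := by
      intro i
      have h1 := (mem_YY (he H) (fun i => hp0 i (by have := i.2; omega)) hv i).1
      have h2 := hlow2 i (by have := i.2; omega)
      have h3 : (B : ℝ) ≤ v i := by linarith
      exact_mod_cast h3
    have hzB : ∀ i, B ≤ z i := by
      intro i
      have h1 := (mem_YS (fun i => hp0 i (by have := i.2; omega)) hz i).1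
      have h2 := hlow1 i (by have := i.2; omega)
      have h3 : (B : ℝ) ≤ z i := by nlinarith
      exact_mod_cast h3
    refine ⟨Fin.append (Fin.append u v) z, append_ge (append_ge huB hvB) hzB, ?_⟩
    rw [append_sum, append_sum]
    refine lt_of_lt_of_le hlt ?_
    have h1 : 3 * (1 / (8 * ((H : ℝ) + 1))) ≤ 1 / ((H : ℝ) + 1) := by
      rw [mul_one_div, div_le_div_iff₀ (by positivity) (by positivity)]
      have h2 : (0 : ℝ) ≤ H := Nat.cast_nonneg H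
      nlinarith
    linarith
  refine (dimH_mono hsub).trans ?_
  rw [dimH_iUnion]
  exact iSup_le hdim

theorem finS_D (n t t' : ℕ) (D : ℝ) (hD : dd n ^ t + dd n ^ (t + 1) + dd n ^ t' < D) (hD1 : D < 1) :
    dimH {θ : ℝ | ¬ CovS (n + 2) ((t + 1) + (t + 1) + (t' + 1)) θ} ≤ ENNReal.ofReal D := by
  have hsub : {θ : ℝ | ¬ CovS (n + 2) ((t + 1) + (t + 1) + (t' + 1)) θ} ⊆
      ⋃ m : ℤ, (IsometryEquiv.addRight (m : ℝ)) ''
        {θ : ℝ | 0 ≤ θ ∧ θ < 1 ∧ ¬ CovB (n + 2) ((t + 1) + (t + 1) + (t' + 1)) θ} := by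
    intro θ hθ
    rw [Set.mem_iUnion]
    refine ⟨⌊θ⌋, Int.fract θ, ⟨Int.fract_nonneg θ, Int.fract_lt_one θ, fun h => hθ ?_⟩, ?_⟩
    · have h1 := h.shift ⌊θ⌋
      rwa [Int.fract_add_floor] at h1
    · show Int.fract θ + (⌊θ⌋ : ℝ) = θ
      exact Int.fract_add_floor θ
  refine (dimH_mono hsub).trans ?_
  rw [dimH_iUnion]
  refine iSup_le fun m => ?_
  rw [IsometryEquiv.dimH_image]
  exact finS_int n t t' D hD hD1

/-- the general theorem -/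
theorem finS (k m d : ℕ) (hk : 2 ≤ k) (hm : 1 ≤ m) :
    dimH {θ : ℝ | ¬ CovS k (2 * m + d + 1) θ} ≤
      ENNReal.ofReal ((1 - 1 / (k : ℝ)) ^ (m - 1) + (1 - 1 / (k : ℝ)) ^ m + (1 - 1 / (k : ℝ)) ^ d) := by
  obtain ⟨n, rfl⟩ : ∃ n, k = n + 2 := ⟨k - 2, by omega⟩
  obtain ⟨t, rfl⟩ : ∃ t, m = t + 1 := ⟨m - 1, by omega⟩
  have edd : (1 - 1 / ((n + 2 : ℕ) : ℝ)) = dd n := by
    unfold dd
    push_cast
    rfl
  rw [edd, Nat.add_sub_cancel]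
  obtain ⟨hd0, hd1⟩ := dd_mem n
  set s : ℝ := dd n ^ t + dd n ^ (t + 1) + dd n ^ d with hs
  have hs0 : 0 ≤ s := by
    simp only [hs]
    positivity
  rw [show 2 * (t + 1) + d + 1 = (t + 1) + (t + 1) + (d + 1) by ring]
  rcases le_or_gt 1 s with h1s | h1s
  · refine (dimH_mono (Set.subset_univ _)).trans ?_
    rw [Real.dimH_univ]
    rw [show (1 : ℝ≥0∞) = ENNReal.ofReal 1 by simp]
    exact ENNReal.ofReal_le_ofReal h1s
  by_contra hcon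
  rw [not_le] at hcon
  obtain ⟨r, hr1, hr2⟩ := ENNReal.lt_iff_exists_nnreal_btwn.1 hcon
  have hr : s < r := by
    have h1 := hr1
    rw [← ENNReal.ofReal_coe_nnreal, ENNReal.ofReal_lt_ofReal_iff_of_nonneg hs0] at h1
    exact h1
  set D : ℝ := min (r : ℝ) ((s + 1) / 2) with hD
  have hD1 : D < 1 := lt_of_le_of_lt (min_le_right _ _) (by linarith)
  have hDs : s < D := lt_min hr (by linarith)
  have hDr : D ≤ r := min_le_left _ _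
  have hle := finS_D n t d D hDs hD1
  have hle2 : ENNReal.ofReal D ≤ r := by
    rw [← ENNReal.ofReal_coe_nnreal]
    exact ENNReal.ofReal_le_ofReal hDr
  exact absurd hr2 (not_lt.2 (hle.trans hle2))

end Pool.Agent.D0H17.SH
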