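import Pool.Agent.D0H17.SH.Defs
import Pool.Agent.D0H65.SH.N0
import Pool.Agent.D0H30.SH.Cover
import Pool.Agent.D0H10.SH.N2
import Pool.Agent.D0H41.SH.N3
import Pool.Agent.D0H41.SH.N4
import Pool.Agent.D0H16.SH.N5

set_option autoImplicit false

namespace Pool.Agent.D0H17.SH

open Finset Pool.Agent.D0H17.GE

/-- N0: the scales -/
theorem facts (n : ℕ) (K Λ : ℝ) (hK : 1 ≤ K) (T : ℕ) : ∃ j0 : ℕ, 1 ≤ j0 ∧ ∀ j : ℕ, j0 ≤ j →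
    SN Λ K n j T (pp K ((n : ℝ) + 2) j) ∧ ∀ i ≤ T, 32 * (j : ℝ) ^ 2 ≤ pp K ((n : ℝ) + 2) j i :=
  Pool.Agent.D0H65.SH.facts n K Λ hK T

/-- N1: the wide sums cover -/
theorem cover (n R t j : ℕ) (K Λ : ℝ) (p : ℕ → ℝ) (hR : 4 ≤ R) (hK : ((n : ℝ) + 3) * (R + 1) ≤ K)
    (hΛ : 2 * (2 * K) ^ (n + 3) ≤ Λ) (h : SN Λ K n j t p) (θ w : ℝ) (hθ : 0 ≤ θ) (hθ1 : θ ≤ 1)
    (hw1 : (2 * p 0) ^ (n + 2) ≤ w) (hw2 : w ≤ (R * p 0) ^ (n + 2)) :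
    ∃ u ∈ XS R (t + 1) p, |w - TT (n + 2) θ u| ≤ ((n : ℝ) + 2) * (((R : ℝ) + 1) * p t) ^ (n + 1) :=
  Pool.Agent.D0H30.SH.cover n R t j K Λ p hR hK hΛ h θ w hθ hθ1 hw1 hw2

/-- N2: bounded multiplicity -/
theorem mult (n R t : ℕ) (K CG : ℝ) (hK : 1 ≤ K) (hCG : 0 ≤ CG) : ∃ C0 : ℝ, 0 < C0 ∧ ∀ (j : ℕ) (p : ℕ → ℝ),
    SN 1 K n j t p → ∀ θ w g : ℝ, 0 ≤ θ → θ ≤ 1 → g ≤ CG * p t ^ (n + 1) →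
      (((XS R (t + 1) p).filter fun u => |w - TT (n + 2) θ u| < g).card : ℝ) ≤ C0 :=
  Pool.Agent.D0H10.SH.mult n R t K CG hK hCG

/-- N3a -/
theorem card_XS_le (n R t : ℕ) (K : ℝ) (hK : 1 ≤ K) : ∃ C0 : ℝ, 0 < C0 ∧ ∀ (j : ℕ) (p : ℕ → ℝ), SN 1 K n j t p →
    ((XS R (t + 1) p).card : ℝ) * p t ^ (n + 1) ≤ C0 * p 0 ^ (n + 2) :=
  Pool.Agent.D0H41.SH.card_XS_le n R t K hK

/-- N3b -/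
theorem card_YS_ge (n t : ℕ) (K : ℝ) (hK : 1 ≤ K) : ∃ κ : ℝ, 0 < κ ∧ ∀ (j H : ℕ) (p : ℕ → ℝ), 1 ≤ H → SN 1 K n j t p →
    (∀ i ≤ t, 32 * (H : ℝ) ≤ p i) →
      κ * p 0 ^ (n + 2) ≤ ((YS H (t + 1) p).card : ℝ) * p t ^ (n + 1) * (H : ℝ) ^ (t + 1) :=
  Pool.Agent.D0H41.SH.card_YS_ge n t K hK

/-- N3c -/
theorem card_YY_ge (n t : ℕ) (K e A : ℝ) (hK : 1 ≤ K) (he : 0 < e) (he1 : e ≤ 1) (hA : 1 ≤ A) : ∃ κ Λ : ℝ, 0 < κ ∧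
    ∀ (j : ℕ) (p : ℕ → ℝ), SN Λ K n j (t + 1) p →
      κ * p 0 ^ (n + 1) ≤ ((YY e A (t + 1) p).card : ℝ) * p (t + 1) ^ (n + 1) :=
  Pool.Agent.D0H41.SH.card_YY_ge n t K e A hK he he1 hA

/-- N4: the sums of the third block are separated -/
theorem sep (n t : ℕ) (K : ℝ) (hK : 1 ≤ K) : ∃ H0 : ℝ, 0 < H0 ∧ ∀ (j H : ℕ) (p : ℕ → ℝ) (θ : ℝ), H0 ≤ H →
    SN 8 K n j t p → 0 ≤ θ → θ ≤ 1 → ∀ v ∈ YS H (t + 1) p, ∀ v' ∈ YS H (t + 1) p, v ≠ v' →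
      1 ≤ |TT (n + 2) θ v - TT (n + 2) θ v'| :=
  Pool.Agent.D0H41.SH.sep n t K hK

/-- N5: separation and transversality for the second block -/
theorem transv (n R t : ℕ) (K CG : ℝ) (hK : 1 ≤ K) (hCG : 0 ≤ CG) : ∃ e A κ M Λ : ℝ, 0 < e ∧ e ≤ 1 / 4 ∧ 1 ≤ A ∧ 0 < κ ∧
    0 < M ∧ 8 ≤ Λ ∧ ∀ (j : ℕ) (p : ℕ → ℝ), SN Λ K n j (t + 1) p →
      (∀ v ∈ YY e A (t + 1) p, ∀ v' ∈ YY e A (t + 1) p, v ≠ v' → 1 ≤ |TT (n + 1) 0 v - TT (n + 1) 0 v'|) ∧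
      ∀ θ : ℝ, 0 ≤ θ → θ ≤ 1 → ∀ u ∈ XS R (t + 1) p, ∀ u' ∈ XS R (t + 1) p, ∀ v ∈ YY e A (t + 1) p,
        ∀ v' ∈ YY e A (t + 1) p, v ≠ v' →
        |TT (n + 2) θ u + TT (n + 2) θ v - (TT (n + 2) θ u' + TT (n + 2) θ v')| ≤ CG * p t ^ (n + 1) →
        κ * |TT (n + 1) 0 v - TT (n + 1) 0 v'| ≤
          |TT (n + 1) θ u + TT (n + 1) θ v - (TT (n + 1) θ u' + TT (n + 1) θ v')| ∧
        |TT n θ u + TT n θ v - (TT n θ u' + TT n θ v')| * |TT (n + 1) 0 v - TT (n + 1) 0 v'| ≤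
          M * (TT (n + 1) θ u + TT (n + 1) θ v - (TT (n + 1) θ u' + TT (n + 1) θ v')) ^ 2 :=
  Pool.Agent.D0H16.SH.transv n R t K CG hK hCG

end Pool.Agent.D0H17.SH
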