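import Pool.Agent.D0H17.SH.FinalS
import Pool.Agent.D0H17.GE.NumE

set_option autoImplicit false

/-! The number of the summands. -/

namespace Pool.Agent.D0H17.SH

open Finset MeasureTheory Filter Pool.Agent.D0H17.GE
open scoped ENNReal

lemma one_le {k t : ℕ} (hk : 2 ≤ k) (ht : 11 * k ≤ 10 * t) : (1 - 1 / (k : ℝ)) ^ t ≤ Real.exp (-(11 / 10)) := by
  have hk0 : (2 : ℝ) ≤ k := by exact_mod_cast hk
  refine (dpow_le (by linarith) t).trans (Real.exp_le_exp.2 (neg_le_neg ?_))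
  rw [div_le_div_iff₀ (by norm_num) (by linarith)]
  have h : (11 : ℝ) * k ≤ 10 * t := by exact_mod_cast ht
  linarith

lemma num3 {k c : ℕ} (hk : 2 ≤ k) (hc : 11 * k ≤ 10 * c) :
    (1 - 1 / (k : ℝ)) ^ (c + 1 - 1) + (1 - 1 / (k : ℝ)) ^ (c + 1) + (1 - 1 / (k : ℝ)) ^ c ≤ 0.9987 := by
  have h1 := one_le hk hc
  have h2 := one_le (t := c + 1) hk (by omega)
  have h3 := exp_m11
  rw [Nat.add_sub_cancel]
  linarith

lemma num4 {k : ℕ} (hk : 2 ≤ k) : (1 - 1 / (k : ℝ)) ^ (4 * k / 3 - 1) + (1 - 1 / (k : ℝ)) ^ (4 * k / 3) +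
    (1 - 1 / (k : ℝ)) ^ (4 * k - 1 - 2 * (4 * k / 3)) ≤ 0.9987 := by
  rcases le_or_gt 8 k with h | h
  · have h1 := one_le (t := 4 * k / 3 - 1) hk (by omega)
    have h2 := one_le (t := 4 * k / 3) hk (by omega)
    have h3 := one_le (t := 4 * k - 1 - 2 * (4 * k / 3)) hk (by omega)
    have h4 := exp_m11
    linarith
  · interval_cases k <;> norm_num

/-- the exceptional set -/
def EXS : Set ℝ := {θ : ℝ | ∃ k s : ℕ, 2 ≤ k ∧ (4 * k ≤ s ∨ 33 * k + 57 ≤ 10 * s) ∧ ¬ CovS k s θ}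

theorem EXS_dim : dimH EXS ≤ ENNReal.ofReal 0.9987 := by
  have hsub : EXS ⊆ ⋃ k : {k : ℕ // 2 ≤ k}, ({θ : ℝ | ¬ CovS k (4 * k) θ} ∪
      {θ : ℝ | ¬ CovS k (2 * ((11 * (k : ℕ) + 9) / 10 + 1) + (11 * (k : ℕ) + 9) / 10 + 1) θ}) := by
    rintro θ ⟨k, s, hk, hs, hc⟩
    rw [Set.mem_iUnion]
    refine ⟨⟨k, hk⟩, ?_⟩
    rcases hs with hs | hs
    · left
      exact fun h => hc (h.mono hs)
    · right
      refine fun h => hc (h.mono ?_)
      show 2 * ((11 * k + 9) / 10 + 1) + (11 * k + 9) / 10 + 1 ≤ s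
      omega
  refine (dimH_mono hsub).trans ?_
  rw [dimH_iUnion]
  refine iSup_le fun k => ?_
  have hk := k.2
  rw [dimH_union]
  refine max_le ?_ ?_
  · have h1 := finS k (4 * k / 3) (4 * k - 1 - 2 * (4 * k / 3)) hk (by omega)
    rw [show 2 * (4 * (k : ℕ) / 3) + (4 * k - 1 - 2 * (4 * k / 3)) + 1 = 4 * k by omega] at h1
    exact h1.trans (ENNReal.ofReal_le_ofReal (num4 hk))
  · exact (finS k ((11 * (k : ℕ) + 9) / 10 + 1) ((11 * (k : ℕ) + 9) / 10) hk (by omega)).trans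
      (ENNReal.ofReal_le_ofReal (num3 hk (by omega)))

theorem EXS_lt : dimH EXS < 1 := by
  refine lt_of_le_of_lt EXS_dim ?_
  rw [show (1 : ℝ≥0∞) = ENNReal.ofReal 1 by simp, ENNReal.ofReal_lt_ofReal_iff (by norm_num)]
  norm_num

end Pool.Agent.D0H17.SH
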