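import Pool.Agent.D0H17.GE.Scale
import Pool.Agent.D0H17.GE.Mult
import Pool.Agent.D0H17.SH.Link

set_option autoImplicit false

/-! One scale: the second moment is large near a bad shift. -/

namespace Pool.Agent.D0H17.SH

open Finset MeasureTheory Pool.Agent.D0H17.GE

lemma SN.mono {Λ Λ' K : ℝ} {n j T T' : ℕ} {p : ℕ → ℝ} (h : SN Λ K n j T p) (hΛ : Λ' ≤ Λ) (hΛ0 : 0 < Λ) (hT : T' ≤ T) :
    SN Λ' K n j T' p where
  big := fun i hi => hΛ.trans (h.big i (by omega))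
  top := fun i hi => h.top i (by omega)
  step := fun i hi => h.step i (by omega)
  gap := fun i hi => by
    refine le_trans ?_ (h.gap i (by omega))
    have h1 : 0 < p (i + 1) := lt_of_lt_of_le hΛ0 (h.big (i + 1) (by omega))
    exact mul_le_mul_of_nonneg_right hΛ h1.le

lemma TT_nonneg {t : ℕ} (m : ℕ) {θ : ℝ} (hθ : 0 ≤ θ) (u : Fin t → ℕ) : 0 ≤ TT m θ u := by
  unfold TT
  exact sum_nonneg fun i _ => by positivity

lemma continuous_TT {t : ℕ} (m : ℕ) (u : Fin t → ℕ) : Continuous fun θ => TT m θ u := by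
  unfold TT
  fun_prop

lemma hasDerivAt_TT {t : ℕ} (m : ℕ) (u : Fin t → ℕ) (θ : ℝ) :
    HasDerivAt (fun θ => TT (m + 1) θ u) (((m : ℝ) + 1) * TT m θ u) θ := by
  unfold TT
  rw [mul_sum]
  refine HasDerivAt.fun_sum fun i _ => ?_
  have h1 : HasDerivAt (fun θ : ℝ => (u i : ℝ) + θ) 1 θ := by
    simpa using (hasDerivAt_id θ).const_add (u i : ℝ)
  have h2 := h1.fun_pow (m + 1)
  simp only [Nat.add_sub_cancel, mul_one] at h2
  push_cast at h2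
  exact h2

/-- stability -/
lemma stable {t : ℕ} (m : ℕ) {u : Fin t → ℕ} {B : ℝ} (hB : ∀ i, (u i : ℝ) ≤ B) {θ θ' : ℝ} (hθ : 0 ≤ θ) (hθ1 : θ ≤ 1)
    (hθ' : 0 ≤ θ') (hθ1' : θ' ≤ 1) :
    |TT (m + 1) θ' u - TT (m + 1) θ u| ≤ t * (((m : ℝ) + 1) * (B + 1) ^ m) * |θ' - θ| := by
  have h1 : ∀ i, |((u i : ℝ) + θ') ^ (m + 1) - ((u i : ℝ) + θ) ^ (m + 1)| ≤ ((m : ℝ) + 1) * (B + 1) ^ m * |θ' - θ| := by
    intro i
    have hui : (0 : ℝ) ≤ u i := Nat.cast_nonneg _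
    have hd : ∀ x ∈ Set.Icc (0 : ℝ) 1, HasDerivWithinAt (fun x : ℝ => ((u i : ℝ) + x) ^ (m + 1))
        (((m : ℝ) + 1) * ((u i : ℝ) + x) ^ m) (Set.Icc (0 : ℝ) 1) x := by
      intro x _
      have h1 : HasDerivAt (fun θ : ℝ => (u i : ℝ) + θ) 1 x := by
        simpa using (hasDerivAt_id x).const_add (u i : ℝ)
      have h2 := h1.fun_pow (m + 1)
      simp only [Nat.add_sub_cancel, mul_one] at h2
      push_cast at h2
      exact h2.hasDerivWithinAt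
    have hbd : ∀ x ∈ Set.Icc (0 : ℝ) 1, ‖((m : ℝ) + 1) * ((u i : ℝ) + x) ^ m‖ ≤ ((m : ℝ) + 1) * (B + 1) ^ m := by
      intro x hx
      have hx0 := hx.1
      rw [Real.norm_of_nonneg (by positivity)]
      refine mul_le_mul_of_nonneg_left ?_ (by positivity)
      exact pow_le_pow_left₀ (by linarith) (by linarith [hB i, hx.2]) m
    have h2 := (convex_Icc (0 : ℝ) 1).norm_image_sub_le_of_norm_hasDerivWithin_le hd hbd (Set.mem_Icc.2 ⟨hθ, hθ1⟩)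
      (Set.mem_Icc.2 ⟨hθ', hθ1'⟩)
    rw [Real.norm_eq_abs, Real.norm_eq_abs] at h2
    exact h2
  unfold TT
  rw [← sum_sub_distrib]
  refine (abs_sum_le_sum_abs _ _).trans ((sum_le_sum fun i _ => h1 i).trans (le_of_eq ?_))
  rw [sum_const, card_univ, Fintype.card_fin, nsmul_eq_mul]
  ring

lemma mem_YS {H t : ℕ} {p : ℕ → ℝ} {v : Fin t → ℕ} (hp : ∀ i : Fin t, 0 ≤ p i) (hv : v ∈ YS H t p) (i : Fin t) :
    p i / 8 ≤ v i ∧ (v i : ℝ) ≤ p i / 4 := by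
  unfold YS at hv
  rw [Fintype.mem_piFinset] at hv
  have h := hv i
  rw [mem_filter, mem_Icc, Nat.ceil_le, Nat.le_floor_iff (by have := hp i; positivity)] at h
  exact h.1

lemma mem_YY {e A : ℝ} {t : ℕ} {p : ℕ → ℝ} {v : Fin t → ℕ} (he : 0 < e) (hp : ∀ i : Fin t, 0 ≤ p i) (hv : v ∈ YY e A t p)
    (i : Fin t) : e * p i / 2 ≤ v i ∧ (v i : ℝ) ≤ e * p i := by
  unfold YY at hv
  rw [Fintype.mem_piFinset] at hv
  have h := hv i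
  rw [mem_filter, mem_Icc, Nat.ceil_le, Nat.le_floor_iff (by have := hp i; positivity)] at h
  exact h.1

/-- the sums of the thin blocks are at most `t P ^ m` -/
lemma TT_le {t : ℕ} (m : ℕ) {P θ : ℝ} (hP : 2 ≤ P) (hθ : 0 ≤ θ) (hθ1 : θ ≤ 1) {v : Fin t → ℕ} (hv : ∀ i, (v i : ℝ) ≤ P / 4) :
    TT m θ v ≤ t * P ^ m := by
  unfold TT
  have h1 : ∀ i, ((v i : ℝ) + θ) ^ m ≤ P ^ m := fun i =>
    pow_le_pow_left₀ (by positivity) (by linarith [hv i]) m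
  refine (sum_le_sum fun i _ => h1 i).trans (le_of_eq ?_)
  rw [sum_const, card_univ, Fintype.card_fin, nsmul_eq_mul]

/-- the bad shifts at one scale -/
def BadT (R : ℕ) (K e A A1 A2 : ℝ) (n t t' j : ℕ) (ρ : ℝ) : Set ℝ :=
  {θ | ∃ τ : ℝ, A1 * ((2 : ℝ) ^ j) ^ (n + 2) ≤ τ ∧ τ ≤ A2 * ((2 : ℝ) ^ j) ^ (n + 2) ∧
    ∀ u ∈ XS R (t + 1) (pp K ((n : ℝ) + 2) j), ∀ v ∈ YY e A (t + 1) (pp K ((n : ℝ) + 2) j),
      ∀ z ∈ YS (j ^ 2) (t' + 1) (pp K ((n : ℝ) + 2) j),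
      3 * ρ ≤ |TT (n + 2) θ u + TT (n + 2) θ v + TT (n + 2) θ z - τ|}

/-- the second moment is large near a bad shift -/
lemma VV_ge {K e A Λ ρ g A1 A2 θ θ' : ℝ} {n R t t' j N : ℕ} (hR : 4 ≤ R)
    (hK : ((n : ℝ) + 3) * (R + 1) ≤ K) (hΛ : 2 * (2 * K) ^ (n + 3) ≤ Λ) (hΛ8 : 8 ≤ Λ) (he : 0 < e) (he4 : e ≤ 1 / 4)
    (hρ : 0 < ρ) (hρ4 : ρ ≤ 1 / 4) (hρg : ρ ≤ g)
    (hg : g = 2 * (((n : ℝ) + 2) * (((R : ℝ) + 1) * pp K ((n : ℝ) + 2) j t) ^ (n + 1)))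
    (hA1 : 2 ^ (n + 2) + ((t : ℝ) + 1) + ((t' : ℝ) + 1) + 1 ≤ A1) (hA2 : A2 + 1 ≤ R) (hA20 : 0 ≤ A2)
    (hθ : 0 ≤ θ) (hθ1 : θ ≤ 1) (hθ' : 0 ≤ θ') (hθ1' : θ' ≤ 1) (hcc : |θ' - θ| ≤ 1 / N)
    (hN : ((2 * t + t' + 3 : ℕ) : ℝ) * (((n : ℝ) + 2) * ((R : ℝ) * 2 ^ j + 1) ^ (n + 1)) * (1 / N) ≤ ρ)
    (hSN : SN Λ K n j (max t t') (pp K ((n : ℝ) + 2) j))
    (hsep : ∀ z ∈ YS (j ^ 2) (t' + 1) (pp K ((n : ℝ) + 2) j), ∀ z' ∈ YS (j ^ 2) (t' + 1) (pp K ((n : ℝ) + 2) j), z ≠ z' →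
      1 ≤ |TT (n + 2) θ' z - TT (n + 2) θ' z'|)
    (hbad : θ ∈ BadT R K e A A1 A2 n t t' j ρ) :
    (((YS (j ^ 2) (t' + 1) (pp K ((n : ℝ) + 2) j)).card : ℝ)) * (2 * ρ) *
      (ρ / g * ((YY e A (t + 1) (pp K ((n : ℝ) + 2) j)).card / 2)) ^ 2 ≤
      VV ρ g (XS R (t + 1) (pp K ((n : ℝ) + 2) j)) (YY e A (t + 1) (pp K ((n : ℝ) + 2) j))
        (fun u => TT (n + 2) θ' u) (fun v => TT (n + 2) θ' v) := by
  set p := pp K ((n : ℝ) + 2) j with hp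
  have hR0 : (4 : ℝ) ≤ R := by exact_mod_cast hR
  have hP1 : (1 : ℝ) ≤ 2 ^ j := one_le_pow₀ (by norm_num)
  have hpbig : ∀ i ≤ max t t', 8 ≤ p i := fun i hi => hΛ8.trans (hSN.big i hi)
  have hSNt : SN Λ K n j t p := hSN.mono (le_refl _) (by linarith) (le_max_left _ _)
  have hp0 : p 0 = 2 ^ j := rfl
  have hP8 : (8 : ℝ) ≤ 2 ^ j := by
    rw [← hp0]
    exact hpbig 0 (Nat.zero_le _)
  have hvB : ∀ v ∈ YY e A (t + 1) p, ∀ i, (v i : ℝ) ≤ 2 ^ j / 4 := by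
    intro v hv i
    have h1 := (mem_YY he (fun i => by have := hpbig i (by have := i.2; omega); linarith) hv i).2
    have h2 := hSN.top i (by have := i.2; omega)
    have h3 := hpbig i (by have := i.2; omega)
    have h4 : e * p i ≤ 1 / 4 * 2 ^ j := mul_le_mul he4 h2 (by linarith) (by norm_num)
    linarith
  have hzB : ∀ z ∈ YS (j ^ 2) (t' + 1) p, ∀ i, (z i : ℝ) ≤ 2 ^ j / 4 := by
    intro v hv i
    have h1 := (mem_YS (fun i => by have := hpbig i (by have := i.2; omega); linarith) hv i).2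
    have h2 := hSN.top i (by have := i.2; omega)
    linarith
  have huB : ∀ u ∈ XS R (t + 1) p, ∀ i, (u i : ℝ) ≤ R * 2 ^ j := by
    intro u hu i
    have h1 := ((mem_XS (fun i => by have := hpbig i (by have := i.2; omega); linarith)).1 hu i).2
    have h2 := hSN.top i (by have := i.2; omega)
    exact h1.trans (mul_le_mul_of_nonneg_left h2 (by linarith))
  have hRP : (2 : ℝ) ^ j / 4 ≤ R * 2 ^ j := by nlinarith
  obtain ⟨τ0, hτ1, hτ2, hmiss⟩ := hbad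
  refine bad_VV (x := fun u => TT (n + 2) θ' u) (y := fun v => TT (n + 2) θ' v)
    (z := fun z : Fin (t' + 1) → ℕ => TT (n + 2) θ' z) hρ hρg
    (XS R (t + 1) p) (YY e A (t + 1) p) (YS (j ^ 2) (t' + 1) p) τ0 ?_ ?_ ?_
  · intro u hu v hv z hz
    show 2 * ρ ≤ |TT (n + 2) θ' u + TT (n + 2) θ' v + TT (n + 2) θ' z - τ0|
    have h1 := hmiss u hu v hv z hz
    have h2 := stable (n + 1) (huB u hu) hθ hθ1 hθ' hθ1'
    have h3 := stable (n + 1) (fun i => (hvB v hv i).trans hRP) hθ hθ1 hθ' hθ1'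
    have h4 := stable (n + 1) (fun i => (hzB z hz i).trans hRP) hθ hθ1 hθ' hθ1'
    rw [show (((n + 1 : ℕ) : ℝ) + 1) = (n : ℝ) + 2 by push_cast; ring, show n + 1 + 1 = n + 2 by ring] at h2 h3 h4
    set Q := ((n : ℝ) + 2) * ((R : ℝ) * 2 ^ j + 1) ^ (n + 1) with hQ
    have hQ0 : 0 ≤ Q := by rw [hQ]; positivity
    have h5 : ((t + 1 : ℕ) : ℝ) * Q * |θ' - θ| + ((t + 1 : ℕ) : ℝ) * Q * |θ' - θ| + ((t' + 1 : ℕ) : ℝ) * Q * |θ' - θ| ≤ ρ := by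
      have h6 : ((t + 1 : ℕ) : ℝ) * Q * |θ' - θ| + ((t + 1 : ℕ) : ℝ) * Q * |θ' - θ| + ((t' + 1 : ℕ) : ℝ) * Q * |θ' - θ| =
          ((2 * t + t' + 3 : ℕ) : ℝ) * Q * |θ' - θ| := by
        push_cast
        ring
      rw [h6]
      exact (mul_le_mul_of_nonneg_left hcc (by positivity)).trans hN
    have h6 : TT (n + 2) θ u + TT (n + 2) θ v + TT (n + 2) θ z - τ0 =
        (TT (n + 2) θ' u + TT (n + 2) θ' v + TT (n + 2) θ' z - τ0) - (TT (n + 2) θ' u - TT (n + 2) θ u) -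
        (TT (n + 2) θ' v - TT (n + 2) θ v) - (TT (n + 2) θ' z - TT (n + 2) θ z) := by ring
    rw [h6] at h1
    rw [abs_le] at h2 h3 h4
    by_contra hlt
    rw [not_le, abs_lt] at hlt
    have h7 : |(TT (n + 2) θ' u + TT (n + 2) θ' v + TT (n + 2) θ' z - τ0) - (TT (n + 2) θ' u - TT (n + 2) θ u) -
        (TT (n + 2) θ' v - TT (n + 2) θ v) - (TT (n + 2) θ' z - TT (n + 2) θ z)| < 3 * ρ := by
      rw [abs_lt]
      constructor <;> linarith [h2.1, h2.2, h3.1, h3.2, h4.1, h4.2, hlt.1, hlt.2]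
    linarith
  · intro z hz z' hz' hne
    show 2 * ρ ≤ |TT (n + 2) θ' z - TT (n + 2) θ' z'|
    have := hsep z hz z' hz' hne
    linarith
  · intro z hz v hv τ hτ
    show ∃ i ∈ XS R (t + 1) p, |τ - TT (n + 2) θ' v - TT (n + 2) θ' i| ≤ g / 2
    have hτ' : |τ - (τ0 - TT (n + 2) θ' z)| < ρ := hτ
    have hz1 := TT_le (n + 2) (by linarith : (2 : ℝ) ≤ 2 ^ j) hθ' hθ1' (hzB z hz)
    have hv2 := TT_le (n + 2) (by linarith : (2 : ℝ) ≤ 2 ^ j) hθ' hθ1' (hvB v hv)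
    have hz0 := TT_nonneg (n + 2) hθ' z
    have hv0 := TT_nonneg (n + 2) hθ' v
    have hPk : (1 : ℝ) ≤ ((2 : ℝ) ^ j) ^ (n + 2) := one_le_pow₀ hP1
    rw [abs_lt] at hτ'
    obtain ⟨u, hu, huw⟩ := cover n R t j K Λ p hR hK hΛ hSNt θ' (τ - TT (n + 2) θ' v) hθ' hθ1' (by
      rw [hp0, mul_pow]
      have h2 := mul_le_mul_of_nonneg_right hA1 (by linarith : (0 : ℝ) ≤ ((2 : ℝ) ^ j) ^ (n + 2))
      push_cast at hz1 hv2
      nlinarith [hτ'.1]) (by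
      rw [hp0, mul_pow]
      have h1 : (R : ℝ) * ((2 : ℝ) ^ j) ^ (n + 2) ≤ (R : ℝ) ^ (n + 2) * ((2 : ℝ) ^ j) ^ (n + 2) := by
        refine mul_le_mul_of_nonneg_right ?_ (by linarith)
        exact le_self_pow₀ (by linarith) (by omega)
      have h2 := mul_le_mul_of_nonneg_right hA2 (by linarith : (0 : ℝ) ≤ ((2 : ℝ) ^ j) ^ (n + 2))
      nlinarith [hτ'.2])
    refine ⟨u, hu, ?_⟩
    rw [hg]
    linarith

end Pool.Agent.D0H17.SH
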