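import Pool.Agent.D0H17.SH.Two
import Pool.Agent.D0H65.GE.M1

set_option autoImplicit false

/-! The number of the cells with a bad shift at one scale. -/

namespace Pool.Agent.D0H17.SH

open Finset MeasureTheory Pool.Agent.D0H17.GE

lemma alg {x y z q q' q'' T T1 g G1 C1 Cx κy κz ρ J H2 : ℝ} (hy0 : 0 < y) (hz0 : 0 < z) (hq : 0 < q)
    (hq' : 0 < q') (hq'' : 0 < q'') (hT : 0 < T) (hT1 : 0 < T1) (hG1 : 0 < G1) (hC1 : 0 < C1) (hCx : 0 < Cx) (hκy : 0 < κy)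
    (hκz : 0 < κz) (hρ : 0 < ρ) (hJ : 0 < J) (hH2 : 0 < H2) (hx : x * q ≤ Cx * T) (hy : κy * T1 ≤ y * q'')
    (hz : κz * T ≤ z * q' * H2) (hg : g = G1 * q) :
    x * y * (C1 * J) / (z * (2 * ρ) * (ρ / g * (y / 2)) ^ 2) ≤
      2 * C1 * G1 ^ 2 * Cx / (κy * κz * ρ ^ 3) * J * H2 * (q * q' * q'' / T1) := by
  have hg0 : 0 < g := by rw [hg]; positivity
  have e1 : x * y * (C1 * J) / (z * (2 * ρ) * (ρ / g * (y / 2)) ^ 2) = 2 * C1 * J / ρ ^ 3 * (x * g ^ 2 / (z * y)) := by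
    field_simp
  have e2 : 2 * C1 * G1 ^ 2 * Cx / (κy * κz * ρ ^ 3) * J * H2 * (q * q' * q'' / T1) =
      2 * C1 * J / ρ ^ 3 * (G1 ^ 2 * Cx * H2 * (q * q' * q'') / (κy * κz * T1)) := by
    field_simp
  rw [e1, e2]
  refine mul_le_mul_of_nonneg_left ?_ (by positivity)
  rw [div_le_div_iff₀ (by positivity) (by positivity)]
  have h1 : x * g ^ 2 * (κy * κz * T1) = G1 ^ 2 * (x * q) * q * (κy * κz * T1) := by rw [hg]; ring
  have h2 : G1 ^ 2 * (x * q) * q * (κy * κz * T1) ≤ G1 ^ 2 * (Cx * T) * q * (κy * κz * T1) := by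
    refine mul_le_mul_of_nonneg_right (mul_le_mul_of_nonneg_right (mul_le_mul_of_nonneg_left hx ?_) hq.le) ?_ <;>
      positivity
  have h3 : G1 ^ 2 * (Cx * T) * q * (κy * κz * T1) = G1 ^ 2 * Cx * q * ((κy * T1) * (κz * T)) := by ring
  have h4 : G1 ^ 2 * Cx * q * ((κy * T1) * (κz * T)) ≤ G1 ^ 2 * Cx * q * ((y * q'') * (z * q' * H2)) := by
    refine mul_le_mul_of_nonneg_left (mul_le_mul hy hz (by positivity) (by positivity)) (by positivity)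
  have h5 : G1 ^ 2 * Cx * q * ((y * q'') * (z * q' * H2)) = G1 ^ 2 * Cx * H2 * (q * q' * q'') * (z * y) := by ring
  linarith

/-- the exponent `1 - 1 / k` -/
noncomputable def dd (n : ℕ) : ℝ := 1 - 1 / ((n : ℝ) + 2)

lemma dd_mem (n : ℕ) : 0 < dd n ∧ dd n < 1 := by
  have hn0 : (0 : ℝ) ≤ n := Nat.cast_nonneg n
  have h1 : 1 / ((n : ℝ) + 2) < 1 := by
    rw [div_lt_one (by linarith)]
    linarith
  have h2 : 0 < 1 / ((n : ℝ) + 2) := by positivity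
  unfold dd
  constructor <;> linarith

lemma q_le {K : ℝ} (hK : 1 ≤ K) (n j t : ℕ) :
    pp K ((n : ℝ) + 2) j t ^ (n + 1) ≤ (K ^ t) ^ (n + 1) * (((2 : ℝ) ^ j) ^ (n + 1)) ^ (dd n ^ t) := by
  have hn0 : (0 : ℝ) ≤ n := Nat.cast_nonneg n
  have h1 := (Pool.Agent.D0H65.GE.pp_le K ((n : ℝ) + 2) hK (by linarith) j t).1
  have h2 := (Pool.Agent.D0H65.GE.pp_le K ((n : ℝ) + 2) hK (by linarith) j t).2
  have hP : (0 : ℝ) < 2 ^ j := by positivity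
  have hp0 : 0 < pp K ((n : ℝ) + 2) j t := lt_of_lt_of_le (by positivity) h2
  refine (pow_le_pow_left₀ hp0.le h1 (n + 1)).trans (le_of_eq ?_)
  rw [mul_pow]
  congr 1
  rw [← Real.rpow_natCast (((2 : ℝ) ^ j) ^ ((1 - 1 / ((n : ℝ) + 2)) ^ t)) (n + 1), ← Real.rpow_mul hP.le,
    ← Real.rpow_natCast ((2 : ℝ) ^ j) (n + 1), ← Real.rpow_mul hP.le]
  unfold dd
  congr 1
  ring

/-- the number of the cells at one scale -/
def NN (L n j : ℕ) : ℕ := L * (2 ^ j) ^ (n + 1)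

lemma NN_cast (L n j : ℕ) : ((NN L n j : ℕ) : ℝ) = L * ((2 : ℝ) ^ j) ^ (n + 1) := by
  unfold NN
  push_cast
  ring

theorem one_scale (n R t t' : ℕ) (K A1 A2 ρ : ℝ) (hR : 4 ≤ R)
    (hK : ((n : ℝ) + 3) * (R + 1) ≤ K) (hA1 : 2 ^ (n + 2) + ((t : ℝ) + 1) + ((t' : ℝ) + 1) + 1 ≤ A1) (hA2 : A2 + 1 ≤ R)
    (hA20 : 0 ≤ A2) (hρ : 0 < ρ) (hρ4 : ρ ≤ 1 / 4) :
    ∃ (e A C : ℝ) (L j0 : ℕ), 0 < e ∧ 0 < C ∧ 1 ≤ L ∧ 1 ≤ j0 ∧ ∀ j : ℕ, j0 ≤ j →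
      (∀ i ≤ max t t', 32 * (j : ℝ) ^ 2 ≤ pp K ((n : ℝ) + 2) j i) ∧ (∀ i ≤ t, (j : ℝ) ≤ e * pp K ((n : ℝ) + 2) j i / 2) ∧
      ∀ F : Finset ℕ, (∀ z ∈ F, z < NN L n j ∧ ∃ θ ∈ BadT R K e A A1 A2 n t t' j ρ, θ ∈ MR.cell (NN L n j) z) →
        (F.card : ℝ) ≤ (NN L n j : ℝ) * (C * (j : ℝ) ^ (1 + 2 * (t' + 1)) *
          (((2 : ℝ) ^ j) ^ (n + 1)) ^ (dd n ^ t + dd n ^ (t + 1) + dd n ^ t' - 1)) := by
  classical
  have hR0 : (4 : ℝ) ≤ R := by exact_mod_cast hR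
  have hn0 : (0 : ℝ) ≤ n := Nat.cast_nonneg n
  have hK1 : 1 ≤ K := by nlinarith
  obtain ⟨G1, hG1⟩ : ∃ G1 : ℝ, G1 = 2 * (((n : ℝ) + 2) * ((R : ℝ) + 1) ^ (n + 1)) := ⟨_, rfl⟩
  have hG11 : 1 ≤ G1 := by
    rw [hG1]
    have h1 : (1 : ℝ) ≤ ((R : ℝ) + 1) ^ (n + 1) := one_le_pow₀ (by linarith)
    nlinarith
  obtain ⟨e, A, C1, Λ1, he, he4, hA, hC1, hΛ1, hVV⟩ := VV_int n R t K G1 hK1 hG11
  obtain ⟨κy, ΛY, hκy, hY⟩ := card_YY_ge n t K e A hK1 he (by linarith) hA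
  obtain ⟨Λ, hΛ⟩ : ∃ Λ : ℝ, Λ = max (max Λ1 ΛY) (2 * (2 * K) ^ (n + 3)) := ⟨_, rfl⟩
  have hΛa : Λ1 ≤ Λ := by rw [hΛ]; exact (le_max_left _ _).trans (le_max_left _ _)
  have hΛY : ΛY ≤ Λ := by rw [hΛ]; exact (le_max_right _ _).trans (le_max_left _ _)
  have hΛb : 2 * (2 * K) ^ (n + 3) ≤ Λ := by rw [hΛ]; exact le_max_right _ _
  have hΛ8 : 8 ≤ Λ := hΛ1.trans hΛa
  obtain ⟨jf, hjf1, hfacts⟩ := facts n K Λ hK1 (max (t + 1) t')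
  obtain ⟨HS, hHS, hsp⟩ := sep n t' K hK1
  obtain ⟨Cx, hCx, hX⟩ := card_XS_le n R t K hK1
  obtain ⟨κz, hκz, hZ⟩ := card_YS_ge n t' K hK1
  obtain ⟨Cst, hCst⟩ : ∃ Cst : ℝ, Cst = ((2 * t + t' + 3 : ℕ) : ℝ) * (((n : ℝ) + 2) * ((R : ℝ) + 1) ^ (n + 1)) := ⟨_, rfl⟩
  have hCst0 : 0 < Cst := by rw [hCst]; positivity
  refine ⟨e, A, 2 * C1 * G1 ^ 2 * Cx / (κy * κz * ρ ^ 3) * ((K ^ t) ^ (n + 1) * (K ^ t') ^ (n + 1) * (K ^ (t + 1)) ^ (n + 1)),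
    ⌈Cst / ρ⌉₊ + 1, max (max jf 1) (max ⌈HS⌉₊ ⌈1 / e⌉₊), he, by positivity, by omega,
    (le_max_right jf 1).trans (le_max_left _ _), fun j hj => ?_⟩
  have hj1 : jf ≤ j := (le_max_left _ _).trans ((le_max_left _ _).trans hj)
  have hj3 : 1 ≤ j := (le_max_right _ _).trans ((le_max_left _ _).trans hj)
  have hjHS : HS ≤ j := Nat.le_of_ceil_le ((le_max_left _ _).trans ((le_max_right _ _).trans hj))
  have hje : 1 / e ≤ j := Nat.le_of_ceil_le ((le_max_right _ _).trans ((le_max_right _ _).trans hj))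
  have hj3r : (1 : ℝ) ≤ j := by exact_mod_cast hj3
  have hj0 : (0 : ℝ) < j := by linarith
  obtain ⟨hSN, h32⟩ := hfacts j hj1
  set p := pp K ((n : ℝ) + 2) j with hp
  have hSN' : SN Λ K n j (max t t') p :=
    hSN.mono (le_refl _) (by linarith) (max_le_max (Nat.le_succ t) (le_refl _))
  have hSNt1 : SN Λ K n j (t + 1) p := hSN.mono (le_refl _) (by linarith) (le_max_left _ _)
  refine ⟨fun i hi => h32 i (hi.trans (max_le_max (Nat.le_succ t) (le_refl _))), ?_, ?_⟩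
  · intro i hi
    have h1 := h32 i (hi.trans ((Nat.le_succ t).trans (le_max_left _ _)))
    rw [div_le_iff₀ he] at hje
    have h2 : e * (32 * (j : ℝ) ^ 2) ≤ e * p i := mul_le_mul_of_nonneg_left h1 he.le
    have h3 : (j : ℝ) * 1 ≤ j * (j * e) := mul_le_mul_of_nonneg_left hje hj0.le
    nlinarith
  intro F hF
  have hP1 : (1 : ℝ) ≤ 2 ^ j := one_le_pow₀ (by norm_num)
  obtain ⟨N, hN⟩ : ∃ N : ℕ, N = NN (⌈Cst / ρ⌉₊ + 1) n j := ⟨_, rfl⟩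
  rw [← hN] at hF ⊢
  have hNr : (N : ℝ) = (⌈Cst / ρ⌉₊ + 1 : ℕ) * ((2 : ℝ) ^ j) ^ (n + 1) := by rw [hN, NN_cast]
  have hT1 : 0 < ((2 : ℝ) ^ j) ^ (n + 1) := by positivity
  have hN0 : (0 : ℝ) < N := by
    rw [hNr]
    push_cast
    positivity
  have hNpos : 0 < N := by exact_mod_cast hN0
  set g : ℝ := G1 * p t ^ (n + 1) with hg
  have hbig : ∀ i ≤ max t t', 8 ≤ p i := fun i hi => hΛ8.trans (hSN'.big i hi)
  have hpt : 1 ≤ p t := by linarith [hbig t (le_max_left _ _)]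
  have hpt' : 1 ≤ p t' := by linarith [hbig t' (le_max_right _ _)]
  have hpt1 : 1 ≤ p (t + 1) := by linarith [hΛ8.trans (hSNt1.big (t + 1) (le_refl _))]
  have hq : 0 < p t ^ (n + 1) := by positivity
  have hq' : 0 < p t' ^ (n + 1) := by positivity
  have hq'' : 0 < p (t + 1) ^ (n + 1) := by positivity
  have hg1 : 1 ≤ g := one_le_mul_of_one_le_of_one_le hG11 (one_le_pow₀ hpt)
  have hρg : ρ ≤ g := by linarith
  set X := XS R (t + 1) p with hXd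
  set Y := YY e A (t + 1) p with hYd
  set Z := YS (j ^ 2) (t' + 1) p with hZd
  have hp0 : p 0 = 2 ^ j := rfl
  have hT : 0 < p 0 ^ (n + 2) := by
    rw [hp0]
    positivity
  have hH32 : ∀ i ≤ t', 32 * ((j ^ 2 : ℕ) : ℝ) ≤ p i := by
    intro i hi
    push_cast
    exact h32 i (hi.trans (le_max_right _ _))
  have hjsq1 : 1 ≤ j ^ 2 := Nat.one_le_pow _ _ (by omega)
  have hYc := hY j p (hSNt1.mono hΛY (by linarith) (le_refl _))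
  have hZc := hZ j (j ^ 2) p hjsq1 (hSN'.mono (by linarith) (by linarith) (le_max_right _ _)) hH32
  have hXc := hX j p (hSN'.mono (by linarith) (by linarith) (le_max_left _ _))
  rw [hp0] at hYc
  have hHp : (0 : ℝ) < ((j ^ 2 : ℕ) : ℝ) := by
    push_cast
    positivity
  have hYpos : (0 : ℝ) < (Y.card : ℝ) := by
    by_contra h
    have h1 : (Y.card : ℝ) = 0 := le_antisymm (not_lt.1 h) (Nat.cast_nonneg _)
    rw [h1] at hYc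
    have : 0 < κy * ((2 : ℝ) ^ j) ^ (n + 1) := by positivity
    linarith
  have hZpos : (0 : ℝ) < (Z.card : ℝ) := by
    by_contra h
    have h1 : (Z.card : ℝ) = 0 := le_antisymm (not_lt.1 h) (Nat.cast_nonneg _)
    rw [h1] at hZc
    have : 0 < κz * p 0 ^ (n + 2) := by positivity
    linarith
  -- the lower bound on the cells
  set W : ℝ := (Z.card : ℝ) * (2 * ρ) * (ρ / g * (Y.card / 2)) ^ 2 with hW
  have hW0 : 0 < W := by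
    simp only [hW]
    have : 0 < g := by linarith
    positivity
  have hstab : ((2 * t + t' + 3 : ℕ) : ℝ) * (((n : ℝ) + 2) * ((R : ℝ) * 2 ^ j + 1) ^ (n + 1)) * (1 / N) ≤ ρ := by
    have h1 : ((R : ℝ) * 2 ^ j + 1) ^ (n + 1) ≤ ((R : ℝ) + 1) ^ (n + 1) * ((2 : ℝ) ^ j) ^ (n + 1) := by
      rw [← mul_pow]
      exact pow_le_pow_left₀ (by positivity) (by nlinarith) (n + 1)
    have h4 : ((2 * t + t' + 3 : ℕ) : ℝ) * (((n : ℝ) + 2) * ((R : ℝ) * 2 ^ j + 1) ^ (n + 1)) ≤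
        Cst * ((2 : ℝ) ^ j) ^ (n + 1) := by
      calc _ ≤ ((2 * t + t' + 3 : ℕ) : ℝ) * (((n : ℝ) + 2) * (((R : ℝ) + 1) ^ (n + 1) * ((2 : ℝ) ^ j) ^ (n + 1))) :=
            mul_le_mul_of_nonneg_left (mul_le_mul_of_nonneg_left h1 (by positivity)) (Nat.cast_nonneg _)
        _ = _ := by rw [hCst]; ring
    rw [mul_one_div, div_le_iff₀ hN0]
    refine h4.trans ?_
    have h5 : Cst / ρ ≤ (⌈Cst / ρ⌉₊ + 1 : ℕ) := by
      push_cast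
      have := Nat.le_ceil (Cst / ρ)
      linarith
    rw [div_le_iff₀ hρ] at h5
    rw [hNr]
    calc Cst * ((2 : ℝ) ^ j) ^ (n + 1) ≤ (((⌈Cst / ρ⌉₊ + 1 : ℕ) : ℝ) * ρ) * ((2 : ℝ) ^ j) ^ (n + 1) :=
          mul_le_mul_of_nonneg_right h5 (by positivity)
      _ = _ := by ring
  have hsep' : ∀ θ' : ℝ, 0 ≤ θ' → θ' ≤ 1 → ∀ z ∈ YS (j ^ 2) (t' + 1) p, ∀ z' ∈ YS (j ^ 2) (t' + 1) p, z ≠ z' →
      1 ≤ |TT (n + 2) θ' z - TT (n + 2) θ' z'| := by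
    intro θ' h1 h2
    refine hsp j (j ^ 2) p θ' ?_ (hSN'.mono hΛ8 (by linarith) (le_max_right _ _)) h1 h2
    push_cast
    nlinarith
  have hcells : ∀ z ∈ F, MR.cell N z ⊆ {θ | W ≤ VV ρ g X Y (fun u => TT (n + 2) θ u) (fun v => TT (n + 2) θ v)} ∩
      Set.Icc 0 1 := by
    intro z hz c' hc'
    obtain ⟨hzN, c, hc, h3⟩ := hF z hz
    unfold MR.cell at h3 hc'
    rw [Set.mem_Ico] at h3 hc'
    have e1 : ((z : ℝ) + 1) / N = (z : ℝ) / N + 1 / N := by ring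
    have hz0 : (0 : ℝ) ≤ (z : ℝ) / N := by positivity
    have hz1 : ((z : ℝ) + 1) / N ≤ 1 := by
      rw [div_le_one hN0]
      exact_mod_cast hzN
    have h6 : 0 ≤ c' := hz0.trans hc'.1
    have h7 : c' ≤ 1 := hc'.2.le.trans hz1
    have h8 : 0 ≤ c := hz0.trans h3.1
    have h9 : c ≤ 1 := h3.2.le.trans hz1
    rw [e1] at h3 hc'
    have h4 : |c' - c| ≤ 1 / N := by
      rw [abs_le]
      constructor <;> linarith [h3.1, h3.2, hc'.1, hc'.2]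
    refine ⟨?_, h6, h7⟩
    exact VV_ge hR hK hΛb hΛ8 he he4 hρ hρ4 hρg (by rw [hg, hG1, mul_pow]; ring) hA1 hA2 hA20 h8 h9 h6 h7 h4
      hstab hSN' (hsep' c' h6 h7) hc
  have hcont : Continuous fun θ => VV ρ g X Y (fun u => TT (n + 2) θ u) (fun v => TT (n + 2) θ v) :=
    continuous_VV hρ hρg X Y (fun u θ => TT (n + 2) θ u) (fun v θ => TT (n + 2) θ v) (fun u => continuous_TT (n + 2) u)
      (fun v => continuous_TT (n + 2) v)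
  have h1 := (cells_le N hNpos F _ hcells).trans (markov hcont (fun c => VV_nonneg hρ hρg X Y _ _)
    (by norm_num : (0 : ℝ) ≤ 1) hW0)
  have hI0 : 0 ≤ ∫ θ in (0 : ℝ)..1, VV ρ g X Y (fun u => TT (n + 2) θ u) (fun v => TT (n + 2) θ v) :=
    intervalIntegral.integral_nonneg (by norm_num) fun c _ => VV_nonneg hρ hρg X Y _ _
  rw [ENNReal.ofReal_le_ofReal_iff (by positivity)] at h1
  have h2 := hVV j p hj3 (hSNt1.mono hΛa (by linarith) (le_refl _)) ρ hρ (by linarith)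
  have h3 := h1.trans (div_le_div_of_nonneg_right h2 hW0.le)
  have h4 := alg (x := (X.card : ℝ)) (y := (Y.card : ℝ)) (z := (Z.card : ℝ)) (q := p t ^ (n + 1)) (q' := p t' ^ (n + 1))
    (q'' := p (t + 1) ^ (n + 1)) (T := p 0 ^ (n + 2)) (T1 := ((2 : ℝ) ^ j) ^ (n + 1)) (g := g) (G1 := G1) (C1 := C1)
    (Cx := Cx) (κy := κy) (κz := κz) (ρ := ρ) (J := (j : ℝ)) (H2 := (((j ^ 2 : ℕ) : ℝ)) ^ (t' + 1)) hYpos hZpos hq hq'
    hq'' hT hT1 (by linarith) hC1 hCx hκy hκz hρ hj0 (by positivity) hXc hYc hZc hg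
  have h5 := h3.trans h4
  rw [div_le_iff₀ hN0] at h5
  refine h5.trans ?_
  rw [mul_comm _ (N : ℝ)]
  refine mul_le_mul_of_nonneg_left ?_ hN0.le
  -- the exponents
  have hql := q_le hK1 n j t
  have hql' := q_le hK1 n j t'
  have hql'' := q_le hK1 n j (t + 1)
  rw [← hp] at hql hql' hql''
  obtain ⟨Q, hQ⟩ : ∃ Q : ℝ, Q = ((2 : ℝ) ^ j) ^ (n + 1) := ⟨_, rfl⟩
  rw [← hQ] at hql hql' hql'' hT1 ⊢
  have h6 : p t ^ (n + 1) * p t' ^ (n + 1) * p (t + 1) ^ (n + 1) / Q ≤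
      (K ^ t) ^ (n + 1) * (K ^ t') ^ (n + 1) * (K ^ (t + 1)) ^ (n + 1) *
        Q ^ (dd n ^ t + dd n ^ (t + 1) + dd n ^ t' - 1) := by
    rw [div_le_iff₀ hT1]
    have h7 : p t ^ (n + 1) * p t' ^ (n + 1) * p (t + 1) ^ (n + 1) ≤
        ((K ^ t) ^ (n + 1) * Q ^ (dd n ^ t)) * ((K ^ t') ^ (n + 1) * Q ^ (dd n ^ t')) *
          ((K ^ (t + 1)) ^ (n + 1) * Q ^ (dd n ^ (t + 1))) :=
      mul_le_mul (mul_le_mul hql hql' hq'.le (by positivity)) hql'' hq''.le (by positivity)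
    refine h7.trans (le_of_eq ?_)
    have h9 : Q ^ (dd n ^ t + dd n ^ (t + 1) + dd n ^ t' - 1) * Q =
        Q ^ (dd n ^ t) * Q ^ (dd n ^ t') * Q ^ (dd n ^ (t + 1)) := by
      nth_rw 2 [← Real.rpow_one Q]
      rw [← Real.rpow_add hT1, ← Real.rpow_add hT1, ← Real.rpow_add hT1]
      congr 1
      ring
    calc _ = (K ^ t) ^ (n + 1) * (K ^ t') ^ (n + 1) * (K ^ (t + 1)) ^ (n + 1) *
          (Q ^ (dd n ^ t) * Q ^ (dd n ^ t') * Q ^ (dd n ^ (t + 1))) := by ring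
      _ = _ := by rw [← h9]; ring
  have h7 : (j : ℝ) * (((j ^ 2 : ℕ) : ℝ)) ^ (t' + 1) = (j : ℝ) ^ (1 + 2 * (t' + 1)) := by
    push_cast
    rw [← pow_mul, pow_add, pow_one]
  calc 2 * C1 * G1 ^ 2 * Cx / (κy * κz * ρ ^ 3) * (j : ℝ) * (((j ^ 2 : ℕ) : ℝ)) ^ (t' + 1) *
        (p t ^ (n + 1) * p t' ^ (n + 1) * p (t + 1) ^ (n + 1) / Q)
      ≤ 2 * C1 * G1 ^ 2 * Cx / (κy * κz * ρ ^ 3) * (j : ℝ) * (((j ^ 2 : ℕ) : ℝ)) ^ (t' + 1) *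
        ((K ^ t) ^ (n + 1) * (K ^ t') ^ (n + 1) * (K ^ (t + 1)) ^ (n + 1) *
        Q ^ (dd n ^ t + dd n ^ (t + 1) + dd n ^ t' - 1)) :=
        mul_le_mul_of_nonneg_left h6 (by positivity)
    _ = _ := by rw [← h7]; ring

end Pool.Agent.D0H17.SH
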