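import Pool.Agent.D0H17.SH.One

set_option autoImplicit false

/-! The average of the second moment at one scale. -/

namespace Pool.Agent.D0H17.SH

open Finset MeasureTheory Pool.Agent.D0H17.GE

theorem VV_int (n R t : ℕ) (K G1 : ℝ) (hK : 1 ≤ K) (hG1 : 1 ≤ G1) : ∃ e A C Λ : ℝ, 0 < e ∧ e ≤ 1 / 4 ∧ 1 ≤ A ∧ 0 < C ∧
    8 ≤ Λ ∧ ∀ (j : ℕ) (p : ℕ → ℝ), 1 ≤ j → SN Λ K n j (t + 1) p → ∀ ρ : ℝ, 0 < ρ → ρ ≤ 1 →
      ∫ θ in (0 : ℝ)..1, VV ρ (G1 * p t ^ (n + 1)) (XS R (t + 1) p) (YY e A (t + 1) p)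
          (fun u => TT (n + 2) θ u) (fun v => TT (n + 2) θ v) ≤
          ((XS R (t + 1) p).card : ℝ) * (YY e A (t + 1) p).card * (C * j) := by
  classical
  obtain ⟨C0, hC0, hmult⟩ := mult n R t K (3 * G1) hK (by linarith)
  obtain ⟨e, A, κ, M, Λ, he, he4, hA, hκ, hM, hΛ8, htr⟩ := transv n R t K (2 * G1) hK (by linarith)
  have ht0 : (0 : ℝ) ≤ t := Nat.cast_nonneg t
  have hlogt : 0 ≤ Real.log ((t : ℝ) + 1) := Real.log_nonneg (by linarith)
  obtain ⟨CL, hCL⟩ : ∃ CL : ℝ, CL = 4 * (1 + Real.log ((t : ℝ) + 1) + (n + 1)) := ⟨_, rfl⟩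
  have hCL0 : 0 < CL := by rw [hCL]; positivity
  refine ⟨e, A, C0 * (4 + 16 * (2 / κ + M) * CL), Λ, he, he4, hA, by positivity, hΛ8,
    fun j p hj hSN ρ hρ hρ1 => ?_⟩
  obtain ⟨hsep, htv⟩ := htr j p hSN
  set g : ℝ := G1 * p t ^ (n + 1) with hg
  have hj0 : (0 : ℝ) < j := by exact_mod_cast hj
  have hj1r : (1 : ℝ) ≤ j := by exact_mod_cast hj
  have hbig : ∀ i ≤ t + 1, 8 ≤ p i := fun i hi => hΛ8.trans (hSN.big i hi)
  have hpt : 1 ≤ p t := by linarith [hbig t (Nat.le_succ t)]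
  have hpn : 1 ≤ p t ^ (n + 1) := one_le_pow₀ hpt
  have hg1 : 1 ≤ g := one_le_mul_of_one_le_of_one_le hG1 hpn
  have hρg : ρ ≤ g := by linarith
  have hP1 : (1 : ℝ) ≤ 2 ^ j := one_le_pow₀ (by norm_num)
  have hP8 : (8 : ℝ) ≤ 2 ^ j := (hbig 0 (Nat.zero_le _)).trans (hSN.top 0 (Nat.zero_le _))
  have hvB : ∀ v ∈ YY e A (t + 1) p, ∀ i, (v i : ℝ) ≤ 2 ^ j / 4 := by
    intro v hv i
    have h1 := (mem_YY he (fun i => by have := hbig i (by have := i.2; omega); linarith) hv i).2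
    have h2 := hSN.top i (by have := i.2; omega)
    have h3 := hbig i (by have := i.2; omega)
    have h4 : e * p i ≤ 1 / 4 * 2 ^ j := mul_le_mul he4 h2 (by linarith) (by norm_num)
    linarith
  -- the harmonic sum
  obtain ⟨N', hN'⟩ : ∃ N' : ℕ, N' = (t + 1) * (2 ^ j) ^ (n + 1) := ⟨_, rfl⟩
  have hN'r : (N' : ℝ) = ((t : ℝ) + 1) * ((2 : ℝ) ^ j) ^ (n + 1) := by
    rw [hN']
    push_cast
    ring
  have hlogN : 4 * (1 + Real.log N') ≤ CL * j := by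
    rw [hN'r, Real.log_mul (by positivity) (by positivity), Real.log_pow, Real.log_pow, hCL]
    have h4 : Real.log 2 ≤ 1 := by
      have := Real.log_two_lt_d9
      linarith
    have h5 : Real.log ((t : ℝ) + 1) ≤ Real.log ((t : ℝ) + 1) * j := le_mul_of_one_le_right hlogt hj1r
    have h6 : (((n + 1 : ℕ) : ℝ)) * (j * Real.log 2) ≤ (((n + 1 : ℕ) : ℝ)) * (j * 1) :=
      mul_le_mul_of_nonneg_left (mul_le_mul_of_nonneg_left h4 hj0.le) (Nat.cast_nonneg _)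
    push_cast at h6 ⊢
    nlinarith
  have hsm := second_moment (ρ := ρ) (g := g) hρ hρg (p0 := 0) (p1 := 1) (by norm_num) (XS R (t + 1) p)
    (YY e A (t + 1) p) (fun u θ => TT (n + 2) θ u) (fun v θ => TT (n + 2) θ v) (fun u => continuous_TT (n + 2) u)
    (fun v => continuous_TT (n + 2) v) C0 hC0.le
    ?_ (fun v v' => |TT (n + 1) 0 v - TT (n + 1) 0 v'|) (CL * j) κ M hκ hM.le ?_ ?_ ?_
  · refine hsm.trans ?_
    refine mul_le_mul_of_nonneg_left ?_ (by positivity)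
    rw [mul_assoc C0]
    refine mul_le_mul_of_nonneg_left ?_ hC0.le
    have h3 : 16 * ρ ^ 2 * (2 / κ + M * (1 - 0)) * (CL * j) ≤ 16 * (2 / κ + M) * CL * j := by
      have h4 : ρ ^ 2 ≤ 1 := pow_le_one₀ hρ.le hρ1
      calc 16 * ρ ^ 2 * (2 / κ + M * (1 - 0)) * (CL * j) = ρ ^ 2 * (16 * (2 / κ + M) * CL * j) := by ring
        _ ≤ 1 * (16 * (2 / κ + M) * CL * j) := mul_le_mul_of_nonneg_right h4 (by positivity)
        _ = _ := by ring
    have h4 : 4 * ρ * (1 - 0) ≤ 4 * j := by linarith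
    calc _ ≤ 4 * (j : ℝ) + 16 * (2 / κ + M) * CL * j := add_le_add h4 h3
      _ = _ := by ring
  · intro θ hθ w
    have hsn : SN 1 K n j t p := hSN.mono (by linarith) (by linarith) (Nat.le_succ t)
    have h1 := hmult j p hsn θ w (3 * g) hθ.1 hθ.2 (by rw [hg]; linarith)
    refine le_trans ?_ h1
    have h2 : ((XS R (t + 1) p).filter fun u => |w - TT (n + 2) θ u| ≤ 2 * g).card ≤
        ((XS R (t + 1) p).filter fun u => |w - TT (n + 2) θ u| < 3 * g).card := by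
      refine card_le_card fun u hu => ?_
      rw [mem_filter] at hu ⊢
      exact ⟨hu.1, by linarith [hu.2]⟩
    exact_mod_cast h2
  · intro v hv v' hv' hne
    have := hsep v hv v' hv' (Ne.symm hne)
    linarith
  · intro v hv
    refine le_trans ?_ hlogN
    have hN'b : ∀ v ∈ YY e A (t + 1) p, TT (n + 1) 0 v ≤ (N' : ℝ) := by
      intro v hv
      have h1 := TT_le (n + 1) (by linarith : (2 : ℝ) ≤ 2 ^ j) (le_refl (0 : ℝ)) (by norm_num) (hvB v hv)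
      rw [hN'r]
      push_cast at h1
      exact h1
    have h2 := harmonic_sep (YY e A (t + 1) p) (fun v => TT (n + 1) 0 v) N' (fun v _ => TT_nonneg (n + 1) (le_refl _) v)
      hN'b hsep v hv
    refine le_trans (le_of_eq ?_) h2
    refine sum_congr ?_ fun _ _ => rfl
    ext w
    simp only [mem_filter]
  · intro u hu u' hu' v hv v' hv' hne
    refine ⟨fun θ => (((n + 1 : ℕ) : ℝ) + 1) * TT (n + 1) θ u + (((n + 1 : ℕ) : ℝ) + 1) * TT (n + 1) θ v -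
        ((((n + 1 : ℕ) : ℝ) + 1) * TT (n + 1) θ u' + (((n + 1 : ℕ) : ℝ) + 1) * TT (n + 1) θ v'),
      fun θ => (((n + 1 : ℕ) : ℝ) + 1) * (((n : ℝ) + 1) * TT n θ u) + (((n + 1 : ℕ) : ℝ) + 1) * (((n : ℝ) + 1) * TT n θ v) -
        ((((n + 1 : ℕ) : ℝ) + 1) * (((n : ℝ) + 1) * TT n θ u') + (((n + 1 : ℕ) : ℝ) + 1) * (((n : ℝ) + 1) * TT n θ v')),
      fun θ => ((hasDerivAt_TT (n + 1) u θ).add (hasDerivAt_TT (n + 1) v θ)).sub
        ((hasDerivAt_TT (n + 1) u' θ).add (hasDerivAt_TT (n + 1) v' θ)),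
      fun θ => (((hasDerivAt_TT n u θ).const_mul _).add ((hasDerivAt_TT n v θ).const_mul _)).sub
        (((hasDerivAt_TT n u' θ).const_mul _).add ((hasDerivAt_TT n v' θ).const_mul _)), ?_, ?_⟩
    · have hc : ∀ w : Fin (t + 1) → ℕ, Continuous fun θ => (((n + 1 : ℕ) : ℝ) + 1) * (((n : ℝ) + 1) * TT n θ w) := fun w =>
        continuous_const.mul (continuous_const.mul (continuous_TT n w))
      exact ((hc u).add (hc v)).sub ((hc u').add (hc v'))
    · intro θ hθ hle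
      have h1 := htv θ hθ.1 hθ.2 u hu u' hu' v hv v' hv' (Ne.symm hne) (hle.trans (le_of_eq (by rw [hg]; ring)))
      obtain ⟨h2, h3⟩ := h1
      have hn0 : (0 : ℝ) ≤ n := Nat.cast_nonneg n
      set D1 : ℝ := TT (n + 1) θ u + TT (n + 1) θ v - (TT (n + 1) θ u' + TT (n + 1) θ v') with hD1
      set D2 : ℝ := TT n θ u + TT n θ v - (TT n θ u' + TT n θ v') with hD2
      set d : ℝ := |TT (n + 1) 0 v - TT (n + 1) 0 v'| with hd
      have e1 : (((n + 1 : ℕ) : ℝ) + 1) * TT (n + 1) θ u + (((n + 1 : ℕ) : ℝ) + 1) * TT (n + 1) θ v -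
        ((((n + 1 : ℕ) : ℝ) + 1) * TT (n + 1) θ u' + (((n + 1 : ℕ) : ℝ) + 1) * TT (n + 1) θ v') = ((n : ℝ) + 2) * D1 := by
        rw [hD1]
        push_cast
        ring
      have e2 : (((n + 1 : ℕ) : ℝ) + 1) * (((n : ℝ) + 1) * TT n θ u) + (((n + 1 : ℕ) : ℝ) + 1) * (((n : ℝ) + 1) * TT n θ v) -
        ((((n + 1 : ℕ) : ℝ) + 1) * (((n : ℝ) + 1) * TT n θ u') + (((n + 1 : ℕ) : ℝ) + 1) * (((n : ℝ) + 1) * TT n θ v')) =
          ((n : ℝ) + 2) * ((n : ℝ) + 1) * D2 := by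
        rw [hD2]
        push_cast
        ring
      beta_reduce
      rw [e1, e2, abs_mul, abs_mul, abs_of_nonneg (by positivity : (0 : ℝ) ≤ (n : ℝ) + 2),
        abs_of_nonneg (by positivity : (0 : ℝ) ≤ ((n : ℝ) + 2) * ((n : ℝ) + 1))]
      constructor
      · calc κ * d ≤ |D1| := h2
          _ ≤ ((n : ℝ) + 2) * |D1| := le_mul_of_one_le_left (abs_nonneg _) (by linarith)
      · calc ((n : ℝ) + 2) * ((n : ℝ) + 1) * |D2| * d = ((n : ℝ) + 2) * ((n : ℝ) + 1) * (|D2| * d) := by ring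
          _ ≤ ((n : ℝ) + 2) * ((n : ℝ) + 1) * (M * D1 ^ 2) := mul_le_mul_of_nonneg_left h3 (by positivity)
          _ ≤ ((n : ℝ) + 2) * ((n : ℝ) + 2) * (M * D1 ^ 2) := by
              refine mul_le_mul_of_nonneg_right ?_ (by positivity)
              exact mul_le_mul_of_nonneg_left (by linarith) (by positivity)
          _ = _ := by ring

end Pool.Agent.D0H17.SH
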